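import Pool.Agent.H10.Iso4

set_option autoImplicit false
open Filter Topology

namespace Pool.Agent.Results.MP_932050_co.Linear

/-- `S` is a finite family of distinct `k`-dimensional subspaces of `ℝ^d`, pairwise
equi-isoclinic with angle `α`. -/
def IsoFamily (k : ℕ) (α : ℝ) (d : ℕ) (S : Finset (Submodule ℝ (EuclideanSpace ℝ (Fin d)))) : Prop :=
  (∀ U ∈ S, Module.finrank ℝ U = k) ∧
    ∀ U ∈ S, ∀ W ∈ S, U ≠ W → ∀ u ∈ U, ‖u‖ = 1 → ‖W.starProjection u‖ = α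

theorem result :
    (∀ k : ℕ, 1 ≤ k → ∀ α : ℝ, 0 ≤ α → α ≤ 1 → ∀ η : ℝ, 0 < η → ∃ C : ℝ,
      ∀ (d : ℕ) (S : Finset (Submodule ℝ (EuclideanSpace ℝ (Fin d)))), IsoFamily k α d S →
        (S.card : ℝ) ≤ (2 + η) * d + C) ∧
    (∀ k : ℕ, 1 ≤ k → ∃ Ck : ℝ, ∀ α : ℝ, 0 ≤ α → α ≤ 1 → ∃ f : ℕ → ℝ,
      Tendsto (fun d : ℕ => f d / d) atTop (𝓝 0) ∧
      ∀ (d : ℕ) (S : Finset (Submodule ℝ (EuclideanSpace ℝ (Fin d)))), IsoFamily k α d S →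
        (S.card : ℝ) ≤ Ck * d + f d) := by
  refine ⟨fun k hk α h0 h1 η hη => ?_, fun k hk => ⟨2 + 1, fun α h0 h1 => ?_⟩⟩
  · obtain ⟨C, -, h⟩ := Pool.Agent.H10.Iso.main k hk α h0 h1 η hη
    exact ⟨C, fun d S hS => h d S hS.1 hS.2⟩
  · obtain ⟨C, -, h⟩ := Pool.Agent.H10.Iso.main k hk α h0 h1 1 one_pos
    exact ⟨fun _ => C, tendsto_const_div_atTop_nhds_zero_nat C, fun d S hS => h d S hS.1 hS.2⟩

end Pool.Agent.Results.MP_932050_co.Linear
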